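import Pool.Agent.Y663.SH.Cor

/-!
# Singular spectrum on antitrees for arbitrary independent potentials

Stronger form of the starting result `SingularSpectrum`. The potentials `v x` are independent, but
their laws `P x` may depend on the vertex in an arbitrary way; they are supported in a common
interval, and no interval of length `2 σ x` carries more than `1 - κ` of the mass of `P x`. If the sum
over the shells `S_n` of `s_n⁻² ∑ x ∈ S_n, σ x ^ 2`, the order of the variance of the shell average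
of the potential, diverges, then the spectrum is almost surely singular.

In particular the disorder may be inhomogeneous, decaying or absent at many vertices, in an
arbitrary bounded deterministic background.
-/

set_option autoImplicit false

open MeasureTheory Filter Topology Set

namespace Pool.Agent.Results.MP_b6e843_mp.IndependentPotentials

open Pool.Agent.H695R3.AT

/-- `ν` is the spectral measure of `H` for the vector `ψ`: a finite measure on the real line with
`∫ f dν = ⟪ψ, f(H) ψ⟫` for all continuous `f`. -/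
def IsSpectralMeasure {X : Type} [NormedAddCommGroup X] [InnerProductSpace ℂ X] [CompleteSpace X]
    (H : X →L[ℂ] X) (ψ : X) (ν : Measure ℝ) : Prop :=
  IsFiniteMeasure ν ∧ ∀ f : ℝ → ℝ, Continuous f →
    Integrable f ν ∧ ((∫ x, f x ∂ν : ℝ) : ℂ) = inner ℂ ψ (cfc f H ψ)

/-- The spectrum of `H` is singular: every vector has a spectral measure, and it is singular with
respect to Lebesgue measure. -/
def IsSingular {X : Type} [NormedAddCommGroup X] [InnerProductSpace ℂ X] [CompleteSpace X]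
    (H : X →L[ℂ] X) : Prop :=
  ∀ ψ : X, (∃ ν : Measure ℝ, IsSpectralMeasure H ψ ν) ∧
    ∀ ν : Measure ℝ, IsSpectralMeasure H ψ ν → ν ⟂ₘ volume

/-- The Schrödinger operator `A_s + V` on `ℓ²` of the antitree (`IsAnderson` with disorder `1`)
exists as a bounded operator, it is self-adjoint and its spectrum is singular. -/
def SingularOn (s : ℕ → ℕ) (V : Vtx s → ℝ) : Prop :=
  (∃ H : L2 s →L[ℂ] L2 s, IsAnderson s 1 V H) ∧
    ∀ H : L2 s →L[ℂ] L2 s, IsAnderson s 1 V H → IsSelfAdjoint H ∧ IsSingular H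

lemma singularOn {s : ℕ → ℕ} {V : Vtx s → ℝ} {C : ℝ} (hC : 0 ≤ C) (hV : ∀ x, |V x| ≤ C)
    (h : ∀ H : L2 s →L[ℂ] L2 s, IsAnderson s 1 V H →
      ∀ (ψ : L2 s) (ν : Measure ℝ), Pool.Agent.H508R3.AT.IsSpec H ψ ν → ν ⟂ₘ volume) :
    SingularOn s V := by
  refine ⟨exists_anderson 1 hC hV, fun H hH => ?_⟩
  have hsa := isSelfAdjoint_anderson hH
  refine ⟨hsa, fun ψ => ⟨?_, fun ν hν => h H hH ψ ν hν⟩⟩
  obtain ⟨ν, e1, -, -, e4, -⟩ := Pool.Agent.H54R3.Spec508.exists_spectral H hsa ψ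
  exact ⟨ν, e1, e4⟩

/-- **Main theorem.** `S_n` is the shell of size `s n > 0`.

(A) Independent potentials with arbitrary laws `P x` in a common interval `[-L, L]`, spread at the
scales `σ x ≥ 0`: if `∑_n s_n⁻² ∑ x ∈ S_n, σ x ^ 2 = ∞`, then `A_s + v` almost surely has singular
spectrum.

(B) The potentials `w x + lam x * v x`, with arbitrary bounded deterministic `w` and `lam` and i.i.d.
`v x` whose law is not a point mass: if `∑_n s_n⁻² ∑ x ∈ S_n, lam x ^ 2 = ∞`, then the spectrum is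
almost surely singular.

(C) The full answer to Q1: if `∑ 1 / s_n = ∞` then for every `lam > 0` the spectrum of
`A_s + lam v` is almost surely singular. -/
theorem result (s : ℕ → ℕ) (hs : ∀ n, 0 < s n) :
    (∀ (P : Vtx s → Measure ℝ) (σ : Vtx s → ℝ) (L κ : ℝ), 0 < κ →
      (∀ x, IsProbabilityMeasure (P x) ∧ P x (Icc (-L) L)ᶜ = 0 ∧ 0 ≤ σ x ∧
        ∀ c : ℝ, P x {t | |t - c| < σ x} ≤ ENNReal.ofReal (1 - κ)) →
      ¬ Summable (fun n => (∑ i : Fin (s n), σ ⟨n, i⟩ ^ 2) / (s n : ℝ) ^ 2) →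
      ∀ᵐ v ∂(Measure.infinitePi P), SingularOn s v) ∧
    (∀ Pv : Measure ℝ, IsProbabilityMeasure Pv → Pv (Icc (-1) 1)ᶜ = 0 → (∀ c : ℝ, Pv {c} < 1) →
      ∀ (w lam : Vtx s → ℝ) (C : ℝ), (∀ x, |w x| ≤ C ∧ |lam x| ≤ C) →
      ¬ Summable (fun n => (∑ i : Fin (s n), lam ⟨n, i⟩ ^ 2) / (s n : ℝ) ^ 2) →
      ∀ᵐ v ∂(Measure.infinitePi fun _ : Vtx s => Pv),
        SingularOn s (fun x => w x + lam x * v x)) ∧
    (∀ Pv : Measure ℝ, IsProbabilityMeasure Pv → Pv (Icc (-1) 1)ᶜ = 0 → (∀ c : ℝ, Pv {c} < 1) →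
      ¬ Summable (fun n => 1 / (s n : ℝ)) → ∀ lam : ℝ, 0 < lam →
      ∀ᵐ v ∂(Measure.infinitePi fun _ : Vtx s => Pv), SingularOn s (fun x => lam * v x)) := by
  have hB : ∀ Pv : Measure ℝ, IsProbabilityMeasure Pv → Pv (Icc (-1) 1)ᶜ = 0 →
      (∀ c : ℝ, Pv {c} < 1) → ∀ (w lam : Vtx s → ℝ) (C : ℝ), (∀ x, |w x| ≤ C ∧ |lam x| ≤ C) →
      ¬ Summable (fun n => (∑ i : Fin (s n), lam ⟨n, i⟩ ^ 2) / (s n : ℝ) ^ 2) →
      ∀ᵐ v ∂(Measure.infinitePi fun _ : Vtx s => Pv),
        SingularOn s (fun x => w x + lam x * v x) := by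
    intro Pv hPr h1 h2 w lam C hC hns
    have hC0 : 0 ≤ C := (abs_nonneg _).trans (hC ⟨0, ⟨0, hs 0⟩⟩).1
    obtain ⟨e1, e2⟩ := Pool.Agent.Y663.SH.inhom hs Pv hPr h1 h2 w lam C (fun x => (hC x).1)
      (fun x => (hC x).2) hns
    filter_upwards [e1, e2] with v hv1 hv2
    exact singularOn (by positivity) hv1 hv2
  refine ⟨?_, hB, ?_⟩
  · intro P σ L κ hκ hP hns
    have hG : Pool.Agent.Y663.SH.GoodFam P σ (max L 1) κ := by
      refine ⟨fun x => (hP x).1, by positivity, hκ, fun x => ?_, fun x => (hP x).2.2.1,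
        fun x => (hP x).2.2.2⟩
      refine measure_mono_null (fun t ht => ?_) (hP x).2.1
      intro hc
      exact ht ⟨(neg_le_neg (le_max_left L 1)).trans hc.1, hc.2.trans (le_max_left L 1)⟩
    have e1 := Pool.Agent.Y663.SH.bdd P σ (max L 1) κ hG
    have e2 := Pool.Agent.Y663.SH.indep hs P σ (max L 1) κ hG hns
    have e1' : ∀ᵐ v ∂(Measure.infinitePi P), ∀ x : Vtx s, |v x| ≤ max L 1 := e1
    have e2' : ∀ᵐ v ∂(Measure.infinitePi P), ∀ H : L2 s →L[ℂ] L2 s, IsAnderson s 1 v H →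
      ∀ (ψ : L2 s) (ν : Measure ℝ), Pool.Agent.H508R3.AT.IsSpec H ψ ν → ν ⟂ₘ volume := e2
    filter_upwards [e1', e2'] with v hv1 hv2
    exact singularOn (by positivity) hv1 hv2
  · intro Pv hPr h1 h2 hns lam hlam
    have hns' : ¬ Summable (fun n => (∑ _i : Fin (s n), lam ^ 2) / (s n : ℝ) ^ 2) := by
      intro hsum
      apply hns
      have e : (fun n => 1 / (s n : ℝ)) =
          fun n => (lam ^ 2)⁻¹ * ((∑ _i : Fin (s n), lam ^ 2) / (s n : ℝ) ^ 2) := by
        funext n
        have hn : (s n : ℝ) ≠ 0 := by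
          have := hs n
          positivity
        rw [Finset.sum_const, Finset.card_univ, Fintype.card_fin, nsmul_eq_mul]
        field_simp
      rw [e]
      exact hsum.mul_left _
    have h := hB Pv hPr h1 h2 (fun _ => 0) (fun _ => lam) lam
      (fun x => ⟨by simpa using hlam.le, by rw [abs_of_pos hlam]⟩) hns'
    filter_upwards [h] with v hv
    simpa using hv

end Pool.Agent.Results.MP_b6e843_mp.IndependentPotentials
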